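import Mathlib

namespace Pool.Agent.H.MP_8b9f13_co

structure St where
  ty : ℕ
  nd : ℕ
  J : ℕ
  L : ℕ
  R : ℕ
  rows : List ℕ
deriving DecidableEq

def close : List ℕ → ℕ → ℕ → List ℕ
  | [], _, _ => []
  | x :: xs, l, r =>
    (if l % 2 = 1 then x &&& l else if r % 2 = 1 then x &&& r else 0) :: close xs (l / 2) (r / 2)

def sS (s : St) : St := ⟨s.ty, s.nd, s.J / 2, s.L / 2, s.R / 2, s.rows.tail⟩
def sJ (p : ℕ × ℕ) (s : St) : St :=
  ⟨2, s.nd, s.J / 2, (s.L / 2) &&& p.1, (s.R / 2) &&& p.2, s.rows.tail⟩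
def sN (p : ℕ × ℕ) (s : St) : St :=
  ⟨1, s.nd - 1, (close s.rows s.L s.R).headD 0 / 2, p.1, p.2, (close s.rows s.L s.R).tail⟩
def okJ (s : St) : Prop := s.ty ≠ 0 ∧ s.J % 2 = 1
def okN (s : St) : Prop := s.ty ≠ 1 ∧ (close s.rows s.L s.R).headD 0 % 2 = 1
def fin (s : St) : Prop := s.ty ≠ 1 ∧ s.nd = 0
instance (s : St) : Decidable (okJ s) := by unfold okJ; infer_instance
instance (s : St) : Decidable (okN s) := by unfold okN; infer_instance
instance (s : St) : Decidable (fin s) := by unfold fin; infer_instance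

def F (B : ℕ) : List (ℕ × ℕ) → St → ℕ
  | [], s => if fin s then 1 else 0
  | p :: ps, s => B * F B ps (sS s) + (if okN s then B * F B ps (sN p s) else 0) +
      (if okJ s then F B ps (sJ p s) else 0)

inductive Tr where
  | lf : Tr
  | nd : Tr → ℕ → St → ℕ → Tr → Tr

def key (s : St) : ℕ :=
  s.rows.foldr (fun x h => (h * 1000003 + x) % 2305843009213693951)
    ((((s.L * 1000003 + s.R) * 1000003 + s.J) * 7 + s.ty) * 7 + s.nd)

def ins (k : ℕ) (s : St) (w : ℕ) : Tr → Tr
  | .lf => .nd .lf k s w .lf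
  | .nd l k' s' w' r =>
    if k < k' then .nd (ins k s w l) k' s' w' r
    else if k = k' ∧ s = s' then .nd l k' s' (w + w') r else .nd l k' s' w' (ins k s w r)

def val (G : St → ℕ) : Tr → ℕ
  | .lf => 0
  | .nd l _ s w r => val G l + w * G s + val G r

lemma val_ins (G : St → ℕ) (k : ℕ) (s : St) (w : ℕ) (t : Tr) :
    val G (ins k s w t) = w * G s + val G t := by
  induction t with
  | lf => simp [ins, val]
  | nd l k' s' w' r ihl ihr =>
    unfold ins
    split_ifs with h1 h2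
    · simp only [val, ihl]; ring
    · simp only [val, h2.2]; ring
    · simp only [val, ihr]; ring

def forceN {α : Type} (n : ℕ) (f : ℕ → α) : α := Nat.rec (motive := fun _ => α) (f 0) (fun m _ => f (m + 1)) n

lemma forceN_eq {α : Type} (n : ℕ) (f : ℕ → α) : forceN n f = f n := by
  cases n <;> rfl

def add (s : St) (w : ℕ) (t : Tr) : Tr := forceN (key s) fun k => forceN w fun w => ins k s w t

lemma val_add (G : St → ℕ) (s : St) (w : ℕ) (t : Tr) :
    val G (add s w t) = w * G s + val G t := by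
  simp only [add, forceN_eq, val_ins]

def step1 (B : ℕ) (p : ℕ × ℕ) (s : St) (w : ℕ) (t : Tr) : Tr :=
  add (sS s) (w * B) (if okN s then add (sN p s) (w * B)
    (if okJ s then add (sJ p s) w t else t) else (if okJ s then add (sJ p s) w t else t))

def step (B : ℕ) (p : ℕ × ℕ) : Tr → Tr → Tr
  | .lf, a => a
  | .nd l _ s w r, a => step B p l (step1 B p s w (step B p r a))

lemma val_step (B : ℕ) (p : ℕ × ℕ) (ps : List (ℕ × ℕ)) (t a : Tr) :
    val (F B ps) (step B p t a) = val (F B (p :: ps)) t + val (F B ps) a := by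
  induction t generalizing a with
  | lf => simp [step, val]
  | nd l k s w r ihl ihr =>
    simp only [step, ihl, step1, val_add, val]
    rw [F]
    split_ifs <;> simp only [val_add, ihr] <;> ring

def run (B : ℕ) : List (ℕ × ℕ) → Tr → ℕ
  | [], t => val (F B []) t
  | p :: ps, t => run B ps (step B p t .lf)

lemma run_eq (B : ℕ) (ps : List (ℕ × ℕ)) (t : Tr) : run B ps t = val (F B ps) t := by
  induction ps generalizing t with
  | nil => rfl
  | cons p ps ih => rw [run, ih, val_step]; simp [val]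

def bits (p : ℕ → Bool) : ℕ → ℕ → ℕ
  | _, 0 => 0
  | j, m + 1 => Nat.bit (p j) (bits p (j + 1) m)

def rowsF (q : ℕ → ℕ → Bool) : ℕ → ℕ → List ℕ
  | _, 0 => []
  | j, m + 1 => bits (q j) j (m + 1) :: rowsF q (j + 1) m

def ba (y : ℕ → ℕ) : ℕ → ℕ → List (ℕ × ℕ)
  | _, 0 => []
  | j, m + 1 => (bits (fun i => decide (y i < y j)) (j + 1) m,
      bits (fun i => decide (y j < y i)) (j + 1) m) :: ba y (j + 1) m

def init (n nd : ℕ) : St :=
  ⟨0, nd, bits (fun _ => true) 0 n, bits (fun _ => true) 0 n, bits (fun _ => true) 0 n,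
    rowsF (fun _ _ => true) 0 n⟩

def y1 (i : ℕ) : ℕ := [12,1,0,10,15,13,7,5,18,3,19,17,4,2,16,8,14,11,6,9].getD i 0
def y2 (i : ℕ) : ℕ :=
  [13, 11, 10, 9, 8, 7, 25, 6, 24, 5, 23, 4, 22, 3, 21, 2, 20, 1, 19, 0, 18, 17, 16, 15, 14, 12].getD i 0

def dig (N k : ℕ) : ℕ := N / (2 ^ 48) ^ k % 2 ^ 48

lemma c2 : (fun N => (dig N 15, dig N 16, dig N 17))
    (run (2 ^ 48) (ba y2 0 26) (.nd .lf 0 (init 26 0) 1 .lf)) = (10881368, 10805718, 10857132) := by
  decide +kernel

lemma c1 : (fun N => (dig N 12, dig N 13, dig N 14))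
    (run (2 ^ 48) (ba y1 0 20) (.nd .lf 0 (init 20 2) 1 .lf)) = (26178, 25829, 26219) := by
  decide +kernel

end Pool.Agent.H.MP_8b9f13_co
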