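import Pool.Agent.H.MP_8b9f13_co.B

namespace Pool.Agent.H.MP_8b9f13_co
open Classical

lemma bits_div (p : ℕ → Bool) (j m : ℕ) : bits p j (m + 1) / 2 = bits p (j + 1) m := by
  rw [bits, Nat.bit_val]; cases p j <;> simp <;> omega

lemma bits_mod (p : ℕ → Bool) (j m : ℕ) : bits p j (m + 1) % 2 = 1 ↔ p j = true := by
  rw [bits, Nat.bit_val]; cases p j <;> simp <;> omega

lemma bits_and (p q : ℕ → Bool) (j m : ℕ) :
    bits p j m &&& bits q j m = bits (fun i => p i && q i) j m := by
  induction m generalizing j with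
  | zero => simp [bits]
  | succ m ih => simp only [bits, Nat.land_bit, ih]

lemma bits_false (j m : ℕ) : bits (fun _ => false) j m = 0 := by
  induction m generalizing j with
  | zero => simp [bits]
  | succ m ih => simp [bits, ih]

lemma bits_congr {p q : ℕ → Bool} (h : ∀ i, p i = q i) (j m : ℕ) : bits p j m = bits q j m := by
  rw [show p = q from funext h]

lemma close_rows (q : ℕ → ℕ → Bool) (l r : ℕ → Bool) (j m : ℕ) :
    close (rowsF q j m) (bits l j m) (bits r j m) =
      rowsF (fun a b => if l a then q a b && l b else if r a then q a b && r b else false) j m := by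
  induction m generalizing j with
  | zero => simp [rowsF, close]
  | succ m ih =>
    simp only [rowsF, close, bits_div, ih, bits_mod, bits_and]
    congr 1
    split_ifs
    · rfl
    · rfl
    · exact (bits_false _ _).symm

def acc : List (ℕ × ℕ) → St → (ℕ → ℕ) → Prop
  | [], s, _ => fin s
  | p :: ps, s, u => if u 0 = 0 then acc ps (sS s) (fun i => u (i + 1))
      else if u 0 = 1 then okN s ∧ acc ps (sN p s) (fun i => u (i + 1))
      else okJ s ∧ acc ps (sJ p s) (fun i => u (i + 1))

def ex {m : ℕ} (w : Fin m → Fin 3) (i : ℕ) : ℕ := if h : i < m then w ⟨i, h⟩ else 0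

def cl {m : ℕ} (w : Fin m → Fin 3) : ℕ := ∑ i, if w i = 2 then 0 else 1

lemma ex_cons {m : ℕ} (a : Fin 3) (w : Fin m → Fin 3) :
    (fun i => ex (Fin.cons a w : Fin (m + 1) → Fin 3) (i + 1)) = ex w := by
  funext i
  unfold ex
  by_cases h : i < m
  · rw [dif_pos h, dif_pos (by omega)]; rfl
  · rw [dif_neg h, dif_neg (by omega)]

lemma F_eq (B : ℕ) (ps : List (ℕ × ℕ)) (s : St) :
    F B ps s = ∑ w : Fin ps.length → Fin 3, if acc ps s (ex w) then B ^ cl w else 0 := by
  induction ps generalizing s with
  | nil => simp [F, acc, cl]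
  | cons p ps ih =>
    rw [F]
    simp only [List.length_cons]
    rw [← (Fin.consEquiv fun _ => Fin 3).sum_comp, Fintype.sum_prod_type, Fin.sum_univ_three]
    have h0 : ∀ (a : Fin 3) (w : Fin ps.length → Fin 3),
        ex (Fin.cons a w : Fin (ps.length + 1) → Fin 3) 0 = a := by
      intro a w; simp [ex]
    have h1 : ∀ (a : Fin 3) (w : Fin ps.length → Fin 3), (Fin.consEquiv fun _ => Fin 3) (a, w) =
        (Fin.cons a w : Fin (ps.length + 1) → Fin 3) := fun _ _ => rfl
    simp only [h1, acc, ex_cons, h0, cl, Fin.sum_univ_succ, Fin.cons_zero,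
      Fin.cons_succ, ih]
    congr 1
    congr 1
    · rw [Finset.mul_sum]
      refine Finset.sum_congr rfl fun w _ => ?_
      simp [pow_add]
    · by_cases h : okN s
      · rw [if_pos h, Finset.mul_sum]
        refine Finset.sum_congr rfl fun w _ => ?_
        simp [pow_add, h]
      · simp [h]
    · by_cases h : okJ s
      · simp [h]
      · simp [h]

def cnt (u : ℕ → ℕ) : ℕ → ℕ
  | 0 => 0
  | j + 1 => cnt u j + if u j = 1 then 1 else 0

lemma cnt_mono (u : ℕ → ℕ) {i j : ℕ} (h : i ≤ j) : cnt u i ≤ cnt u j := by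
  induction h with
  | refl => exact le_rfl
  | step _ ih => rw [cnt]; omega

lemma cnt_ex (u : ℕ → ℕ) (j : ℕ) (h : 0 < cnt u j) :
    ∃ i < j, u i = 1 ∧ cnt u (i + 1) = cnt u j := by
  induction j with
  | zero => simp [cnt] at h
  | succ j ih =>
    by_cases h1 : u j = 1
    · exact ⟨j, by omega, h1, rfl⟩
    · have : cnt u (j + 1) = cnt u j := by simp [cnt, h1]
      obtain ⟨i, hi, h2, h3⟩ := ih (by omega)
      exact ⟨i, by omega, h2, by omega⟩

def sep (a b c d : ℕ) : Prop :=
  (a < c ∧ a < d ∧ b < c ∧ b < d) ∨ (c < a ∧ d < a ∧ c < b ∧ d < b)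

section
variable (y u : ℕ → ℕ)

def mem (j a : ℕ) : Prop := a < j ∧ u a ≠ 0 ∧ cnt u (a + 1) = cnt u j
def old (j c d : ℕ) : Prop :=
  c < j ∧ d < j ∧ u c ≠ 0 ∧ u d ≠ 0 ∧ cnt u (c + 1) = cnt u (d + 1) ∧ cnt u (c + 1) < cnt u j
def cp (j a b : ℕ) : Prop := ∀ c d, old u j c d → sep (y a) (y b) (y c) (y d)
def Jp (j i : ℕ) : Prop := ∀ a, mem u j a → cp y u j a i
def Lp (j i : ℕ) : Prop := ∀ a, mem u j a → y i < y a
def Rp (j i : ℕ) : Prop := ∀ a, mem u j a → y a < y i
noncomputable def ty (j : ℕ) : ℕ :=
  if cnt u j = 0 then 0 else if ∃ a, mem u j a ∧ u a = 2 then 2 else 1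
noncomputable def S (nd j m : ℕ) : St :=
  ⟨ty u j, nd - cnt u j, bits (fun i => decide (Jp y u j i)) j m,
    bits (fun i => decide (Lp y u j i)) j m, bits (fun i => decide (Rp y u j i)) j m,
    rowsF (fun a b => decide (cp y u j a b)) j m⟩
def Good (j : ℕ) : Prop :=
  (∀ i < j, u i = 2 → 0 < cnt u (i + 1)) ∧
  (∀ i < j, u i = 1 → cnt u (i + 1) < cnt u j → ∃ i' < j, u i' = 2 ∧ cnt u (i' + 1) = cnt u (i + 1)) ∧
  (∀ a b c d, a < j → b < j → c < j → d < j → u a ≠ 0 → u b ≠ 0 → u c ≠ 0 → u d ≠ 0 →
    cnt u (a + 1) = cnt u (b + 1) → cnt u (c + 1) = cnt u (d + 1) → cnt u (c + 1) < cnt u (a + 1) →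
    sep (y a) (y b) (y c) (y d))

lemma good_pred (j : ℕ) (h : Good y u (j + 1)) : Good y u j := by
  obtain ⟨h1, h2, h3⟩ := h
  refine ⟨fun i hi => h1 i (by omega), fun i hi hu hc => ?_, fun a b c d ha hb hc hd =>
    h3 a b c d (by omega) (by omega) (by omega) (by omega)⟩
  have := cnt_mono u (Nat.le_succ j)
  obtain ⟨i', hi', h4, h5⟩ := h2 i (by omega) hu (by simp only [Nat.succ_eq_add_one] at this; omega)
  refine ⟨i', ?_, h4, h5⟩
  by_contra hh
  have : i' = j := by omega
  subst this
  simp only [Nat.succ_eq_add_one] at this; omega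

lemma good_le (j m : ℕ) (h : Good y u (j + m)) : Good y u j := by
  induction m with
  | zero => exact h
  | succ m ih => exact ih (good_pred y u _ h)

lemma stepS (nd j m : ℕ) (hu : u j = 0) (hg : Good y u j) :
    Good y u (j + 1) ∧ sS (S y u nd j (m + 1)) = S y u nd (j + 1) m := by
  have hc : cnt u (j + 1) = cnt u j := by simp [cnt, hu]
  have lt : ∀ a, a < j + 1 → u a ≠ 0 → a < j := by
    intro a h1 h2; by_contra h; have : a = j := by omega
    subst this; exact h2 hu
  have hm : mem u (j + 1) = mem u j := by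
    funext a; apply propext; unfold mem; rw [hc]
    exact ⟨fun h => ⟨lt a h.1 h.2.1, h.2⟩, fun h => ⟨by omega, h.2⟩⟩
  have ho : old u (j + 1) = old u j := by
    funext c d; apply propext; unfold old; rw [hc]
    exact ⟨fun h => ⟨lt c h.1 h.2.2.1, lt d h.2.1 h.2.2.2.1, h.2.2⟩,
      fun h => ⟨by omega, by omega, h.2.2⟩⟩
  obtain ⟨h1, h2, h3⟩ := hg
  refine ⟨⟨fun i hi h => h1 i (lt i hi (by omega)) h, fun i hi h h' => ?_,
    fun a b c d ha hb hc hd ua ub uc ud => h3 a b c d (lt a ha ua) (lt b hb ub) (lt c hc uc)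
      (lt d hd ud) ua ub uc ud⟩, ?_⟩
  · obtain ⟨i', a, b⟩ := h2 i (lt i hi (by omega)) h (by omega)
    exact ⟨i', by omega, b⟩
  · have e1 : cp y u (j + 1) = cp y u j := by funext a b; unfold cp; rw [ho]
    have e2 : Jp y u (j + 1) = Jp y u j := by funext a; unfold Jp; rw [hm, e1]
    have e3 : Lp y u (j + 1) = Lp y u j := by funext a; unfold Lp; rw [hm]
    have e4 : Rp y u (j + 1) = Rp y u j := by funext a; unfold Rp; rw [hm]
    have e5 : ty u (j + 1) = ty u j := by unfold ty; rw [hm, hc]
    simp only [sS, S, bits_div, rowsF, List.tail_cons, e1, e2, e3, e4, e5, hc]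

lemma stepJ (nd j m : ℕ) (hu : u j = 2) (hg : Good y u j) :
    (okJ (S y u nd j (m + 1)) ↔ Good y u (j + 1)) ∧ (Good y u (j + 1) →
      sJ (bits (fun i => decide (y i < y j)) (j + 1) m,
      bits (fun i => decide (y j < y i)) (j + 1) m) (S y u nd j (m + 1)) = S y u nd (j + 1) m) := by
  have hc : cnt u (j + 1) = cnt u j := by simp [cnt, hu]
  have hm : ∀ a, mem u (j + 1) a ↔ mem u j a ∨ a = j := by
    intro a; unfold mem; rw [hc]
    constructor
    · intro h; by_cases h' : a = j
      · exact Or.inr h'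
      · exact Or.inl ⟨by omega, h.2⟩
    · rintro (h | rfl)
      · exact ⟨by omega, h.2⟩
      · exact ⟨by omega, by omega, hc⟩
  have lt : ∀ c, c < j + 1 → cnt u (c + 1) < cnt u j → c < j := by
    intro c h1 h2; by_contra h; have : c = j := by omega
    subst this; omega
  have ho : old u (j + 1) = old u j := by
    funext c d; apply propext; unfold old; rw [hc]
    exact ⟨fun h => ⟨lt c h.1 h.2.2.2.2.2, lt d h.2.1 (by omega), h.2.2⟩,
      fun h => ⟨by omega, by omega, h.2.2⟩⟩
  have hty : ty u j ≠ 0 ↔ 0 < cnt u j := by unfold ty; split_ifs <;> omega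
  have hok : okJ (S y u nd j (m + 1)) ↔ 0 < cnt u j ∧ Jp y u j j := by
    simp only [okJ, S, bits_mod, hty, decide_eq_true_eq]
  obtain ⟨h1, h2, h3⟩ := hg
  have hiff : (0 < cnt u j ∧ Jp y u j j) ↔ Good y u (j + 1) := by
    constructor
    · rintro ⟨hp, hJ⟩
      obtain ⟨a0, ha0, hu0, hc0⟩ := cnt_ex u j hp
      refine ⟨fun i hi h => ?_, fun i hi h h' => ?_, fun a b c d ha hb hc' hd ua ub uc ud e1 e2 e3 => ?_⟩
      · by_cases h' : i = j
        · subst h'; omega
        · exact h1 i (by omega) h
      · obtain ⟨i', a, b⟩ := h2 i (lt i hi (by omega)) h (by omega)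
        exact ⟨i', by omega, b⟩
      · have := cnt_mono u (show a + 1 ≤ j + 1 by omega)
        have hcj := lt c hc' (by omega)
        have hdj := lt d hd (by omega)
        by_cases haj : a = j
        · subst haj
          have ho' : old u a c d := ⟨hcj, hdj, uc, ud, e2, by omega⟩
          by_cases hbj : b = a
          · subst hbj
            have := hJ a0 ⟨ha0, by omega, hc0⟩ c d ho'
            unfold sep at *; omega
          · have := hJ b ⟨by omega, ub, by omega⟩ c d ho'
            unfold sep at *; omega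
        · by_cases hbj : b = j
          · subst hbj
            exact hJ a ⟨by omega, ua, by omega⟩ c d ⟨hcj, hdj, uc, ud, e2, by omega⟩
          · exact h3 a b c d (by omega) (by omega) hcj hdj ua ub uc ud e1 e2 e3
    · rintro ⟨g1, g2, g3⟩
      refine ⟨by have := g1 j (by omega) hu; omega, fun a ha c d hcd => ?_⟩
      obtain ⟨a1, a2, a3⟩ := ha
      obtain ⟨c1, c2, c3, c4, c5, c6⟩ := hcd
      exact g3 a j c d (by omega) (by omega) (by omega) (by omega) a2 (by omega) c3 c4 (by omega) c5
        (by omega)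
  refine ⟨hok.trans hiff, fun hg' => ?_⟩
  obtain ⟨hp, hJ⟩ := hiff.2 hg'
  obtain ⟨a0, ha0, hu0, hc0⟩ := cnt_ex u j hp
  have hcp : cp y u (j + 1) = cp y u j := by funext a b; unfold cp; rw [ho]
  simp only [sJ, S, bits_div, rowsF, List.tail_cons, bits_and, hc, hcp, St.mk.injEq, true_and,
    and_true]
  refine ⟨?_, ?_, ?_, ?_⟩
  · unfold ty; rw [if_neg (by omega), if_pos ⟨j, (hm j).2 (Or.inr rfl), hu⟩]
  · refine bits_congr (fun i => ?_) _ _
    apply decide_eq_decide.2
    unfold Jp; rw [hcp]
    refine ⟨fun h a ha => ?_, fun h a ha => h a ((hm a).2 (Or.inl ha))⟩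
    rcases (hm a).1 ha with ha | rfl
    · exact h a ha
    · intro c d hcd
      have e1 := h a0 ⟨ha0, by omega, hc0⟩ c d hcd
      have e2 := hJ a0 ⟨ha0, by omega, hc0⟩ c d hcd
      unfold sep at *; omega
  · refine bits_congr (fun i => ?_) _ _
    rw [← Bool.decide_and]; apply decide_eq_decide.2
    unfold Lp; simp only [hm, or_imp, forall_and, forall_eq]
  · refine bits_congr (fun i => ?_) _ _
    rw [← Bool.decide_and]; apply decide_eq_decide.2
    unfold Rp; simp only [hm, or_imp, forall_and, forall_eq]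

lemma stepN (nd j m : ℕ) (hu : u j = 1) (hg : Good y u j) :
    (okN (S y u nd j (m + 1)) ↔ Good y u (j + 1)) ∧
      sN (bits (fun i => decide (y i < y j)) (j + 1) m,
      bits (fun i => decide (y j < y i)) (j + 1) m) (S y u nd j (m + 1)) = S y u nd (j + 1) m := by
  have hc : cnt u (j + 1) = cnt u j + 1 := by simp [cnt, hu]
  have le : ∀ a, a < j → cnt u (a + 1) ≤ cnt u j := fun a h => cnt_mono u h
  have hm : ∀ a, mem u (j + 1) a ↔ a = j := by
    intro a; unfold mem
    constructor
    · intro h; by_contra h'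
      have := le a (by omega); omega
    · rintro rfl; exact ⟨by omega, by omega, rfl⟩
  have lt : ∀ c, c < j + 1 → cnt u (c + 1) < cnt u (j + 1) → c < j := by
    intro c h1 h2; by_contra h; have : c = j := by omega
    subst this; omega
  have ho : ∀ c d, old u (j + 1) c d ↔ old u j c d ∨ (mem u j c ∧ mem u j d) := by
    intro c d; unfold old mem
    constructor
    · rintro ⟨c1, c2, c3, c4, c5, c6⟩
      have := lt c c1 c6
      have := lt d c2 (by omega)
      omega
    · intro h; omega
  have hcp : (fun a b => if decide (Lp y u j a) then decide (cp y u j a b) && decide (Lp y u j b)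
      else if decide (Rp y u j a) then decide (cp y u j a b) && decide (Rp y u j b) else false) =
      fun a b => decide (cp y u (j + 1) a b) := by
    funext a b
    have key : cp y u (j + 1) a b ↔ cp y u j a b ∧
        ∀ c d, mem u j c → mem u j d → sep (y a) (y b) (y c) (y d) := by
      unfold cp; simp only [ho, or_imp, forall_and, and_imp]
    simp only [decide_eq_true_eq, key]
    split_ifs with hL hR
    · rw [← Bool.decide_and]; apply decide_eq_decide.2
      refine and_congr_right fun _ => ⟨fun h c d hc hd => ?_, fun h c hc => ?_⟩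
      · have := hL c hc; have := hL d hd; have := h c hc; have := h d hd
        unfold sep; omega
      · have := hL c hc; have := h c c hc hc
        unfold sep at *; omega
    · rw [← Bool.decide_and]; apply decide_eq_decide.2
      refine and_congr_right fun _ => ⟨fun h c d hc hd => ?_, fun h c hc => ?_⟩
      · have := hR c hc; have := hR d hd; have := h c hc; have := h d hd
        unfold sep; omega
      · have := hR c hc; have := h c c hc hc
        unfold sep at *; omega
    · symm; apply decide_eq_false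
      rintro ⟨-, h⟩
      unfold Lp at hL; unfold Rp at hR
      push Not at hL hR
      obtain ⟨c, hc, h1⟩ := hL
      obtain ⟨d, hd, h2⟩ := hR
      have := h c d hc hd
      unfold sep at *; omega
  have hcl : close (S y u nd j (m + 1)).rows (S y u nd j (m + 1)).L (S y u nd j (m + 1)).R =
      rowsF (fun a b => decide (cp y u (j + 1) a b)) j (m + 1) := by
    simp only [S, close_rows, hcp]
  obtain ⟨h1, h2, h3⟩ := hg
  constructor
  · unfold okN
    rw [hcl]
    simp only [rowsF, List.headD_cons, bits_mod, decide_eq_true_eq]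
    have hty : (S y u nd j (m + 1)).ty ≠ 1 ↔ (0 < cnt u j → ∃ a, mem u j a ∧ u a = 2) := by
      simp only [S, ty]
      split_ifs with e1 e2
      · simp [e1]
      · simp [e2]
      · simp only [ne_eq, not_true_eq_false, e2, imp_false, false_iff]; omega
    rw [hty]
    constructor
    · rintro ⟨hp, hC⟩
      refine ⟨fun i hi h => h1 i (by by_contra hh; have : i = j := by omega
                                     subst this; omega) h,
        fun i hi h h' => ?_, fun a b c d ha hb hc' hd ua ub uc ud e1 e2 e3 => ?_⟩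
      · have hij := lt i hi h'
        by_cases e : cnt u (i + 1) < cnt u j
        · obtain ⟨i', a, b⟩ := h2 i hij h e
          exact ⟨i', by omega, b⟩
        · have : 0 < cnt u (i + 1) := by simp [cnt, h]
          obtain ⟨a, ⟨a1, a2, a3⟩, a4⟩ := hp (by omega)
          exact ⟨a, by omega, a4, by omega⟩
      · have := cnt_mono u (show a + 1 ≤ j + 1 by omega)
        have hcj := lt c hc' (by omega)
        have hdj := lt d hd (by omega)
        by_cases haj : a = j
        · subst haj
          have hbj : b = a := by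
            by_contra hh; have := le b (by omega); omega
          subst hbj
          exact hC c d ⟨hc', hd, uc, ud, e2, e3⟩
        · have := le a (by omega)
          exact h3 a b c d (by omega) (lt b hb (by omega)) hcj hdj ua ub uc ud e1 e2 e3
    · rintro ⟨g1, g2, g3⟩
      refine ⟨fun hp => ?_, fun c d hcd => ?_⟩
      · obtain ⟨a0, ha0, hu0, hc0⟩ := cnt_ex u j hp
        obtain ⟨i', a, b, c⟩ := g2 a0 (by omega) hu0 (by omega)
        exact ⟨i', ⟨lt i' a (by omega), by omega, by omega⟩, b⟩
      · obtain ⟨c1, c2, c3, c4, c5, c6⟩ := hcd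
        exact g3 j j c d (by omega) (by omega) c1 c2 (by omega) (by omega) c3 c4 rfl c5 c6
  · unfold sN
    rw [hcl]
    simp only [S, bits_div, rowsF, List.tail_cons, List.headD_cons, St.mk.injEq, and_true]
    refine ⟨?_, by omega, ?_, ?_, ?_⟩
    · unfold ty; rw [if_neg (by omega), if_neg]
      rintro ⟨a, ha, h⟩
      rw [(hm a).1 ha] at h; omega
    · refine bits_congr (fun i => ?_) _ _
      apply decide_eq_decide.2
      unfold Jp; simp only [hm, forall_eq]
    · refine bits_congr (fun i => ?_) _ _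
      apply decide_eq_decide.2
      unfold Lp; simp only [hm, forall_eq]
    · refine bits_congr (fun i => ?_) _ _
      apply decide_eq_decide.2
      unfold Rp; simp only [hm, forall_eq]

lemma acc_iff (hu : ∀ i, u i < 3) (nd m j : ℕ) (hg : Good y u j) :
    acc (ba y j m) (S y u nd j m) (fun i => u (j + i)) ↔
      Good y u (j + m) ∧ ty u (j + m) ≠ 1 ∧ nd ≤ cnt u (j + m) := by
  induction m generalizing j with
  | zero => simp only [ba, acc, fin, S, add_zero, hg, true_and, Nat.sub_eq_zero_iff_le]
  | succ m ih =>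
    have e : (fun i => u (j + (i + 1))) = fun i => u (j + 1 + i) := by
      funext i; congr 1; omega
    have e' : j + (m + 1) = j + 1 + m := by omega
    simp only [ba, acc, add_zero, e, e']
    split_ifs with h0 h1
    · obtain ⟨g, s⟩ := stepS y u nd j m h0 hg
      rw [s, ih _ g]
    · obtain ⟨g, s⟩ := stepN y u nd j m h1 hg
      rw [g, s]
      exact ⟨fun h => (ih _ h.1).1 h.2, fun h => ⟨good_le y u _ _ h.1, (ih _ (good_le y u _ _ h.1)).2 h⟩⟩
    · obtain ⟨g, s⟩ := stepJ y u nd j m (by have := hu j; omega) hg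
      rw [g]
      constructor
      · rintro ⟨a, b⟩
        rw [s a] at b
        exact (ih _ a).1 b
      · intro h
        have a := good_le y u _ _ h.1
        rw [s a]
        exact ⟨a, (ih _ a).2 h⟩

lemma S_zero (nd n : ℕ) : S y u nd 0 n = init n nd := by
  simp [S, init, ty, cnt, Jp, Lp, Rp, cp, mem, old]

lemma acc_init (hu : ∀ i, u i < 3) (nd n : ℕ) :
    acc (ba y 0 n) (init n nd) u ↔ Good y u n ∧ ty u n ≠ 1 ∧ nd ≤ cnt u n := by
  have := acc_iff y u hu nd n 0 ⟨by simp, by simp, by simp⟩
  simpa [S_zero] using this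

end

lemma ba_len (y : ℕ → ℕ) (j m : ℕ) : (ba y j m).length = m := by
  induction m generalizing j with
  | zero => rfl
  | succ m ih => simp [ba, ih]

lemma run_sum (B : ℕ) (y : ℕ → ℕ) (n nd : ℕ) :
    run B (ba y 0 n) (.nd .lf 0 (init n nd) 1 .lf) = ∑ w : Fin n → Fin 3,
      if Good y (ex w) n ∧ ty (ex w) n ≠ 1 ∧ nd ≤ cnt (ex w) n then B ^ cl w else 0 := by
  rw [run_eq]
  simp only [val, zero_add, add_zero, one_mul]
  have hu : ∀ (m : ℕ) (w : Fin m → Fin 3) (i : ℕ), ex w i < 3 := by
    intro m w i; unfold ex; split_ifs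
    · exact Fin.is_lt _
    · omega
  have key : ∀ (ps : List (ℕ × ℕ)) (h : ps.length = n) (s : St), F B ps s =
      ∑ w : Fin n → Fin 3, if acc ps s (ex w) then B ^ cl w else 0 := by
    intro ps h s; subst h; exact F_eq B ps s
  rw [key _ (ba_len _ _ _)]
  refine Finset.sum_congr rfl fun w _ => ?_
  simp only [acc_init y _ (hu n w)]

end Pool.Agent.H.MP_8b9f13_co
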