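import Pool.Agent.H.MP_8b9f13_co.C

namespace Pool.Agent.H.MP_8b9f13_co
open Classical

def cond {n : ℕ} (p : Fin n → ℕ) (s : Setoid (Fin n)) : Prop :=
  ∀ a b c d, s a b → a ≠ b → s c d → c ≠ d → ¬ s a c → sep (p a) (p b) (p c) (p d)

def Q {n : ℕ} (s : Setoid (Fin n)) : Prop :=
  ∃ a b c d, a ≠ b ∧ c ≠ d ∧ s a b ∧ s c d ∧ ¬ s a c

lemma card_quot {n : ℕ} (s : Setoid (Fin n)) :
    Nat.card (Quotient s) = (Finset.univ.filter fun i => ¬ ∃ j < i, s j i).card := by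
  rw [← Fintype.card_subtype, ← Nat.card_eq_fintype_card]
  symm
  refine Nat.card_eq_of_bijective (fun i => Quotient.mk s i.1) ⟨?_, ?_⟩
  · rintro ⟨a, ha⟩ ⟨b, hb⟩ h
    have h' : s a b := Quotient.exact h
    rcases lt_trichotomy a b with e | e | e
    · exact absurd ⟨a, e, h'⟩ hb
    · exact Subtype.ext e
    · exact absurd ⟨b, e, s.symm h'⟩ ha
  · intro q
    induction q using Quotient.inductionOn with
    | h a =>
      obtain ⟨m, hm, hmin⟩ := WellFounded.has_min wellFounded_lt {j | s j a} ⟨a, s.refl a⟩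
      refine ⟨⟨m, ?_⟩, Quotient.sound hm⟩
      rintro ⟨j, hj, h⟩
      exact hmin j (s.trans h hm) hj

def rel {n : ℕ} (u : ℕ → ℕ) : Setoid (Fin n) where
  r i j := i = j ∨ (u i ≠ 0 ∧ u j ≠ 0 ∧ cnt u (i + 1) = cnt u (j + 1))
  iseqv := ⟨fun _ => Or.inl rfl, by
    rintro a b (h | h)
    · exact Or.inl h.symm
    · exact Or.inr ⟨h.2.1, h.1, h.2.2.symm⟩, by
    rintro a b c (rfl | h) (rfl | h')
    · exact Or.inl rfl
    · exact Or.inr h'
    · exact Or.inr h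
    · exact Or.inr ⟨h.1, h'.2.1, h.2.2.trans h'.2.2⟩⟩

lemma rel_iff {n : ℕ} (u : ℕ → ℕ) (i j : Fin n) :
    rel u i j ↔ i = j ∨ (u i ≠ 0 ∧ u j ≠ 0 ∧ cnt u (i + 1) = cnt u (j + 1)) := Iff.rfl

def Valid (u : ℕ → ℕ) (n : ℕ) : Prop :=
  (∀ i < n, u i = 2 → 0 < cnt u (i + 1)) ∧
  (∀ i < n, u i = 1 → ∃ i' < n, u i' = 2 ∧ cnt u (i' + 1) = cnt u (i + 1))

section
variable {n : ℕ} {u : ℕ → ℕ} (hu : ∀ i, u i < 3) (hv : Valid u n)
include hu hv

lemma v_two (i : Fin n) : u i = 2 ↔ ∃ j < i, rel u j i := by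
  constructor
  · intro h
    obtain ⟨j, h1, h2, h3⟩ := cnt_ex u _ (hv.1 i i.2 h)
    have : j ≠ i := by rintro rfl; omega
    exact ⟨⟨j, by omega⟩, by simp only [Fin.lt_def]; omega, Or.inr ⟨by simp only; omega, by omega, h3⟩⟩
  · rintro ⟨j, hj, rfl | ⟨h1, h2, h3⟩⟩
    · exact absurd hj (lt_irrefl _)
    · have := cnt_mono u (show j.1 + 1 ≤ i from hj)
      have := hu i
      by_contra h
      have : cnt u (i + 1) = cnt u i + 1 := by rw [cnt, if_pos (by omega)]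
      omega

lemma v_part (i : Fin n) : u i ≠ 0 ↔ ∃ j, i ≠ j ∧ rel u i j := by
  constructor
  · intro h
    by_cases h2 : u i = 2
    · obtain ⟨j, hj, h3⟩ := (v_two hu hv i).1 h2
      exact ⟨j, hj.ne', (rel u).symm h3⟩
    · have := hu i
      obtain ⟨j, h1, h2, h3⟩ := hv.2 i i.2 (by omega)
      refine ⟨⟨j, h1⟩, ?_, Or.inr ⟨h, by simp only; omega, h3.symm⟩⟩
      rintro rfl
      simp only at *; omega
  · rintro ⟨j, hj, rfl | ⟨h1, h2, h3⟩⟩
    · exact absurd rfl hj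
    · exact h1

lemma v_pos (i : Fin n) (h : u i ≠ 0) : 0 < cnt u (i + 1) ∧ cnt u (i + 1) ≤ cnt u n := by
  refine ⟨?_, cnt_mono u i.2⟩
  by_cases h2 : u i = 2
  · exact hv.1 i i.2 h2
  · have := hu i
    rw [cnt, if_pos (by omega)]; omega

lemma v_Q : Q (rel u : Setoid (Fin n)) ↔ 2 ≤ cnt u n := by
  constructor
  · rintro ⟨a, b, c, d, h1, h2, h3, h4, h5⟩
    have ha := (v_part hu hv a).2 ⟨b, h1, h3⟩
    have hc := (v_part hu hv c).2 ⟨d, h2, h4⟩
    have := v_pos hu hv a ha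
    have := v_pos hu hv c hc
    have : cnt u (a + 1) ≠ cnt u (c + 1) := fun h => h5 (Or.inr ⟨ha, hc, h⟩)
    omega
  · intro h
    obtain ⟨a, a1, a2, a3⟩ := cnt_ex u n (by omega)
    have : cnt u (a + 1) = cnt u a + 1 := by rw [cnt, if_pos a2]
    obtain ⟨c, c1, c2, c3⟩ := cnt_ex u a (by omega)
    obtain ⟨b, b1, b2⟩ := (v_part hu hv ⟨a, a1⟩).1 (by simp only; omega)
    obtain ⟨d, d1, d2⟩ := (v_part hu hv ⟨c, by omega⟩).1 (by simp only; omega)
    refine ⟨_, _, _, _, b1, d1, b2, d2, ?_⟩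
    rintro (h | h)
    · simp only [Fin.mk.injEq] at h; omega
    · simp only at h; omega

lemma v_cond (y : ℕ → ℕ) : cond (fun i : Fin n => y i) (rel u) ↔
    (∀ a b c d, a < n → b < n → c < n → d < n → u a ≠ 0 → u b ≠ 0 → u c ≠ 0 → u d ≠ 0 →
    cnt u (a + 1) = cnt u (b + 1) → cnt u (c + 1) = cnt u (d + 1) → cnt u (c + 1) < cnt u (a + 1) →
    sep (y a) (y b) (y c) (y d)) := by
  constructor
  · intro h a b c d ha hb hc hd ua ub uc ud e1 e2 e3
    have key : ∀ a b : Fin n, u a ≠ 0 → u b ≠ 0 → cnt u (a + 1) = cnt u (b + 1) →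
        ∃ b', a ≠ b' ∧ rel u a b' ∧ (b' = b ∨ a = b) := by
      intro a b ua ub e
      by_cases hab : a = b
      · obtain ⟨b', h1, h2⟩ := (v_part hu hv a).1 ua
        exact ⟨b', h1, h2, Or.inr hab⟩
      · exact ⟨b, hab, Or.inr ⟨ua, ub, e⟩, Or.inl rfl⟩
    obtain ⟨b', b1, b2, b3⟩ := key ⟨a, ha⟩ ⟨b, hb⟩ ua ub e1
    obtain ⟨d', d1, d2, d3⟩ := key ⟨c, hc⟩ ⟨d, hd⟩ uc ud e2
    have := h _ _ _ _ b2 b1 d2 d1 (by
      rintro (h | h)
      · simp only [Fin.mk.injEq] at h; subst h; omega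
      · simp only at h; omega)
    rcases b3 with rfl | b3 <;> rcases d3 with rfl | d3 <;>
      simp only [Fin.mk.injEq] at * <;> subst_vars <;> unfold sep at * <;> omega
  · intro h a b c d h1 h2 h3 h4 h5
    rcases h1 with h1 | h1
    · exact absurd h1 h2
    rcases h3 with h3 | h3
    · exact absurd h3 h4
    have : cnt u (a + 1) ≠ cnt u (c + 1) := fun e => h5 (Or.inr ⟨h1.1, h3.1, e⟩)
    rcases lt_or_gt_of_ne this with e | e
    · have := h c d a b c.2 d.2 a.2 b.2 h3.1 h3.2.1 h1.1 h1.2.1 h3.2.2 h1.2.2 e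
      unfold sep at *; simp only; omega
    · exact h a b c d a.2 b.2 c.2 d.2 h1.1 h1.2.1 h3.1 h3.2.1 h1.2.2 h3.2.2 e

lemma v_idx : cond (fun i : Fin n => (i : ℕ)) (rel u) := by
  rw [show (fun i : Fin n => (i : ℕ)) = fun i : Fin n => id (i : ℕ) from rfl, v_cond hu hv]
  intro a b c d _ _ _ _ _ _ _ _ e1 e2 e3
  have key : ∀ a c, cnt u (c + 1) < cnt u (a + 1) → c < a := by
    intro a c h; by_contra hh
    have := cnt_mono u (show a + 1 ≤ c + 1 by omega); omega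
  exact Or.inr ⟨key a c e3, key a d (by omega), key b c (by omega), key b d (by omega)⟩

lemma v_good (y : ℕ → ℕ) (h : cond (fun i : Fin n => y i) (rel u)) : Good y u n ∧ ty u n ≠ 1 := by
  refine ⟨⟨hv.1, fun i hi h _ => hv.2 i hi h, (v_cond hu hv y).1 h⟩, ?_⟩
  unfold ty
  split_ifs with h1 h2
  · omega
  · omega
  · exfalso
    obtain ⟨a, a1, a2, a3⟩ := cnt_ex u n (by omega)
    obtain ⟨b, b1, b2, b3⟩ := hv.2 a a1 a2
    exact h2 ⟨b, ⟨b1, by omega, by omega⟩, b2⟩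

end

lemma valid_of {n : ℕ} {u y : ℕ → ℕ} (h : Good y u n) (h' : ty u n ≠ 1) : Valid u n := by
  refine ⟨h.1, fun i hi e => ?_⟩
  by_cases e' : cnt u (i + 1) < cnt u n
  · exact h.2.1 i hi e e'
  · have := cnt_mono u (show i + 1 ≤ n from hi)
    have : cnt u (i + 1) = cnt u i + 1 := by rw [cnt, if_pos e]
    unfold ty at h'
    rw [if_neg (by omega)] at h'
    split_ifs at h' with h2
    · obtain ⟨a, ⟨a1, a2, a3⟩, a4⟩ := h2
      exact ⟨a, a1, a4, by omega⟩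
    · exact absurd rfl h'

lemma ex_lt {m : ℕ} (w : Fin m → Fin 3) (i : ℕ) : ex w i < 3 := by
  unfold ex; split_ifs
  · exact Fin.is_lt _
  · omega

lemma ex_val {m : ℕ} (w : Fin m → Fin 3) (i : Fin m) : ex w i = w i := by simp [ex]

lemma surj {n : ℕ} (s : Setoid (Fin n)) (h : cond (fun i : Fin n => (i : ℕ)) s) :
    ∃ w : Fin n → Fin 3, Valid (ex w) n ∧ rel (ex w) = s := by
  let w : Fin n → Fin 3 := fun i => if ∃ j < i, s j i then 2 else if ∃ j, i ≠ j ∧ s i j then 1 else 0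
  have w0 : ∀ i : Fin n, ex w i ≠ 0 ↔ ∃ j, i ≠ j ∧ s i j := by
    intro i; rw [ex_val]; simp only [w]
    split_ifs with h1 h2
    · obtain ⟨j, hj, h⟩ := h1
      exact ⟨fun _ => ⟨j, hj.ne', s.symm h⟩, fun _ => by decide⟩
    · exact ⟨fun _ => h2, fun _ => by decide⟩
    · exact ⟨fun h => absurd rfl h, fun h => absurd h h2⟩
  have w2 : ∀ i : Fin n, ex w i = 2 ↔ ∃ j < i, s j i := by
    intro i; rw [ex_val]; simp only [w]
    split_ifs with h1 h2
    · exact ⟨fun _ => h1, fun _ => rfl⟩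
    · exact ⟨fun h => absurd h (by decide), fun h => absurd h h1⟩
    · exact ⟨fun h => absurd h (by decide), fun h => absurd h h1⟩
  have hmin : ∀ j : Fin n, (∃ k, j ≠ k ∧ s j k) → ∃ m ≤ j, s m j ∧ ex w m = 1 := by
    intro a ⟨k, hk, hak⟩
    obtain ⟨m, hm, hmin⟩ := WellFounded.has_min wellFounded_lt {j | s j a} ⟨a, s.refl a⟩
    refine ⟨m, not_lt.1 (hmin a (s.refl a)), hm, ?_⟩
    have e2 : ex w m ≠ 2 := by
      rw [Ne, w2]; rintro ⟨j, hj, h⟩; exact hmin j (s.trans h hm) hj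
    have e0 : ex w m ≠ 0 := by
      rw [w0]
      by_cases e : m = a
      · exact ⟨k, e ▸ hk, s.trans hm hak⟩
      · exact ⟨a, e, hm⟩
    have := ex_lt w m
    omega
  have c1 : ∀ i j : ℕ, i ≤ j → (cnt (ex w) (i + 1) = cnt (ex w) (j + 1) ↔
      ∀ m, i < m → m ≤ j → ex w m ≠ 1) := by
    intro i j hij
    induction hij with
    | refl => simp only [true_iff]; intro m h1 h2; omega
    | @step j hij ih =>
      have := cnt_mono (ex w) (show i + 1 ≤ j + 1 by simpa using hij)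
      simp only [Nat.succ_eq_add_one, Nat.le_eq] at *
      rw [cnt.eq_2 (ex w) (j + 1)]
      constructor
      · intro h m h1 h2
        by_cases e : m = j + 1
        · subst e; intro e; rw [if_pos e] at h; omega
        · exact ih.1 (by omega) m h1 (by omega)
      · intro h
        rw [if_neg (h (j + 1) (by omega) le_rfl), ih.2 fun m h1 h2 => h m h1 (by omega)]; rfl
  have key : ∀ i j : Fin n, i < j → ex w i ≠ 0 → ex w j ≠ 0 →
      (cnt (ex w) (i + 1) = cnt (ex w) (j + 1) ↔ s i j) := by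
    intro i j hij hi hj
    rw [c1 i j hij.le]
    constructor
    · intro hh
      by_contra hs
      obtain ⟨m, m1, m2, m3⟩ := hmin j ((w0 j).1 hj)
      obtain ⟨k, k1, k2⟩ := (w0 i).1 hi
      have e1 : ¬ i.1 < m.1 := fun e => hh m e m1 m3
      have := h m j i k m2 (by rintro rfl; exact e1 hij) k2 k1 (fun e => hs (s.trans (s.symm e) m2))
      have : i.1 < j.1 := hij
      unfold sep at *; simp only at *; omega
    · intro hs m m1 m2 m3
      have mn : m < n := lt_of_le_of_lt m2 j.2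
      obtain ⟨k, k1, k2⟩ := (w0 ⟨m, mn⟩).1 (by simp only; omega)
      have e2 : ¬ ∃ j < (⟨m, mn⟩ : Fin n), s j ⟨m, mn⟩ := by rw [← w2]; simp only; omega
      have := h i j ⟨m, mn⟩ k hs hij.ne k2 k1 (fun e => e2 ⟨i, m1, e⟩)
      unfold sep at *; simp only at *; omega
  have hrel : rel (ex w) = s := by
    ext i j
    rw [rel_iff]
    rcases lt_trichotomy i j with e | rfl | e
    · constructor
      · rintro (h | h)
        · exact absurd h e.ne
        · exact (key i j e h.1 h.2.1).1 h.2.2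
      · intro h
        have a1 := (w0 i).2 ⟨j, e.ne, h⟩
        have a2 := (w0 j).2 ⟨i, e.ne', s.symm h⟩
        exact Or.inr ⟨a1, a2, (key i j e a1 a2).2 h⟩
    · exact ⟨fun _ => s.refl _, fun _ => Or.inl rfl⟩
    · constructor
      · rintro (h | h)
        · exact absurd h e.ne'
        · exact s.symm ((key j i e h.2.1 h.1).1 h.2.2.symm)
      · intro h
        have a1 := (w0 i).2 ⟨j, e.ne', h⟩
        have a2 := (w0 j).2 ⟨i, e.ne, s.symm h⟩
        exact Or.inr ⟨a1, a2, ((key j i e a2 a1).2 (s.symm h)).symm⟩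
  refine ⟨w, ⟨fun i hi e => ?_, fun i hi e => ?_⟩, hrel⟩
  · obtain ⟨m, m1, m2, m3⟩ := hmin ⟨i, hi⟩ ((w0 _).1 (by simp only; omega))
    have := cnt_mono (ex w) (show m.1 + 1 ≤ i + 1 from Nat.succ_le_succ m1)
    have : cnt (ex w) (m + 1) = cnt (ex w) m + 1 := by rw [cnt, if_pos m3]
    omega
  · obtain ⟨k, k1, k2⟩ := (w0 ⟨i, hi⟩).1 (by simp only; omega)
    have e2 : ¬ ∃ j < (⟨i, hi⟩ : Fin n), s j ⟨i, hi⟩ := by rw [← w2]; simp only; omega
    have e3 : (⟨i, hi⟩ : Fin n) < k := by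
      rcases lt_trichotomy (⟨i, hi⟩ : Fin n) k with e | e | e
      · exact e
      · exact absurd e k1
      · exact absurd ⟨k, e, s.symm k2⟩ e2
    have e4 := (w2 k).2 ⟨_, e3, k2⟩
    exact ⟨k, k.2, e4, ((key _ _ e3 (by simp only; omega) (by omega)).2 k2).symm⟩

lemma cl_eq {n : ℕ} (w : Fin n → Fin 3) (hv : Valid (ex w) n) :
    Nat.card (Quotient (rel (ex w) : Setoid (Fin n))) = cl w := by
  rw [card_quot, cl, Finset.card_filter]
  refine Finset.sum_congr rfl fun i _ => ?_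
  have hh := v_two (ex_lt w) hv i
  rw [ex_val] at hh
  by_cases h : w i = 2
  · rw [if_pos h, if_neg (not_not.2 (hh.1 (by rw [h]; rfl)))]
  · rw [if_neg h, if_pos]
    intro e; exact h (Fin.ext (hh.2 e))

def X (n : ℕ) (y : ℕ → ℕ) (nd k : ℕ) : Set (Setoid (Fin n)) :=
  {s | cond (fun i : Fin n => (i : ℕ)) s ∧ cond (fun i : Fin n => y i) s ∧
    Nat.card (Quotient s) = k ∧ (nd = 0 ∨ Q s)}

lemma X_card (n : ℕ) (y : ℕ → ℕ) (nd k : ℕ) (hnd : nd = 0 ∨ nd = 2) :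
    (X n y nd k).ncard = (Finset.univ.filter fun w : Fin n → Fin 3 =>
      (Good y (ex w) n ∧ ty (ex w) n ≠ 1 ∧ nd ≤ cnt (ex w) n) ∧ cl w = k).card := by
  rw [← Set.ncard_coe_finset]
  symm
  refine Set.ncard_congr (fun w _ => rel (ex w)) ?_ ?_ ?_
  · intro w hw
    simp only [Finset.coe_filter, Finset.mem_univ, true_and, Set.mem_setOf_eq] at hw
    obtain ⟨⟨h1, h2, h3⟩, h4⟩ := hw
    have hv := valid_of h1 h2
    refine ⟨v_idx (ex_lt w) hv, (v_cond (ex_lt w) hv y).2 h1.2.2, (cl_eq w hv).trans h4, ?_⟩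
    rcases hnd with e | e
    · exact Or.inl e
    · exact Or.inr ((v_Q (ex_lt w) hv).2 (e ▸ h3))
  · intro w w' hw hw' e
    simp only [Finset.coe_filter, Finset.mem_univ, true_and, Set.mem_setOf_eq] at hw hw'
    have hv := valid_of hw.1.1 hw.1.2.1
    have hv' := valid_of hw'.1.1 hw'.1.2.1
    funext i
    have a1 := v_two (ex_lt w) hv i
    have a2 := v_two (ex_lt w') hv' i
    have a3 := v_part (ex_lt w) hv i
    have a4 := v_part (ex_lt w') hv' i
    rw [e, ← a2] at a1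
    rw [e, ← a4] at a3
    apply Fin.ext
    rw [← ex_val, ← ex_val]
    exact (by intro a b; omega : ∀ a b : ℕ, a < 3 → b < 3 → (a = 2 ↔ b = 2) → (a ≠ 0 ↔ b ≠ 0) → a = b)
      _ _ (ex_lt w i) (ex_lt w' i) a1 a3
  · rintro s ⟨h1, h2, h3, h4⟩
    obtain ⟨w, hv, rfl⟩ := surj s h1
    refine ⟨w, ?_, rfl⟩
    simp only [Finset.coe_filter, Finset.mem_univ, true_and, Set.mem_setOf_eq]
    have := v_good (ex_lt w) hv y h2
    refine ⟨⟨this.1, this.2, ?_⟩, (cl_eq w hv).symm.trans h3⟩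
    rcases h4 with e | e
    · omega
    · have := (v_Q (ex_lt w) hv).1 e
      omega

lemma dig_sum (B : ℕ) (i : ℕ) : ∀ (m : ℕ) (a : ℕ → ℕ), (∀ k, a k < B) → i < m →
    (∑ k ∈ Finset.range m, a k * B ^ k) / B ^ i % B = a i := by
  induction i with
  | zero =>
    intro m a ha hm
    obtain ⟨m, rfl⟩ : ∃ m', m = m' + 1 := ⟨m - 1, by omega⟩
    simp only [Finset.sum_range_succ', pow_succ, ← mul_assoc, ← Finset.sum_mul, pow_zero, mul_one,
      Nat.div_one, Nat.mul_add_mod_self_right]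
    exact Nat.mod_eq_of_lt (ha 0)
  | succ i ih =>
    intro m a ha hm
    obtain ⟨m, rfl⟩ : ∃ m', m = m' + 1 := ⟨m - 1, by omega⟩
    have hB : 0 < B := lt_of_le_of_lt (Nat.zero_le _) (ha 0)
    rw [pow_succ', ← Nat.div_div_eq_div_mul, ← ih m (fun k => a (k + 1)) (fun k => ha _) (by omega)]
    congr 2
    simp only [Finset.sum_range_succ', pow_succ, ← mul_assoc, ← Finset.sum_mul, pow_zero, mul_one]
    rw [add_comm, Nat.add_mul_div_right _ _ hB, Nat.div_eq_of_lt (ha 0), zero_add]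

lemma X_dig (n : ℕ) (y : ℕ → ℕ) (nd k : ℕ) (hnd : nd = 0 ∨ nd = 2) (hn : 3 ^ n < 2 ^ 48)
    (hk : k ≤ n) :
    (X n y nd k).ncard = dig (run (2 ^ 48) (ba y 0 n) (.nd .lf 0 (init n nd) 1 .lf)) k := by
  obtain ⟨B, hB⟩ : ∃ B, B = 2 ^ 48 := ⟨_, rfl⟩
  rw [dig]
  rw [← hB] at hn ⊢
  rw [run_sum, ← dig_sum B k (n + 1) (fun k => (X n y nd k).ncard) _ (by omega)]
  · congr 2
    rw [← Finset.sum_filter, ← Finset.sum_fiberwise_of_maps_to (t := Finset.range (n + 1))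
      (g := fun w : Fin n → Fin 3 => cl w)]
    · refine Finset.sum_congr rfl fun k _ => ?_
      rw [X_card n y nd k hnd, Finset.filter_filter, Finset.sum_congr rfl (g := fun _ => B ^ k)]
      · simp
      · intro w hw
        rw [(Finset.mem_filter.1 hw).2.2]
    · intro w _
      rw [Finset.mem_range, Nat.lt_succ_iff]
      calc cl w ≤ ∑ _i : Fin n, 1 := Finset.sum_le_sum fun i _ => by split_ifs <;> omega
        _ = n := by simp
  · intro k
    rw [X_card n y nd k hnd]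
    refine lt_of_le_of_lt (Finset.card_le_univ _) ?_
    simpa using hn

end Pool.Agent.H.MP_8b9f13_co
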