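import Pool.Agent.H.MP_8b9f13_co.D

namespace Pool.Agent.H.MP_8b9f13_co
open Sum

def cat {m n : ℕ} (pos : Fin n → Fin m) : SimpleGraph (Fin m ⊕ Fin n) where
  Adj
    | inl i, inl j => i.1 + 1 = j.1 ∨ j.1 + 1 = i.1
    | inl i, inr a => pos a = i
    | inr a, inl i => pos a = i
    | inr _, inr _ => False
  symm := ⟨by rintro (a | a) (b | b) h <;> first | exact h | exact h.symm⟩
  loopless := ⟨by rintro (a | a) h
                  · simp only at h; omega
                  · exact h⟩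

instance {m n : ℕ} (pos : Fin n → Fin m) : DecidableRel (cat pos).Adj
  | inl i, inl j => inferInstanceAs (Decidable (i.1 + 1 = j.1 ∨ j.1 + 1 = i.1))
  | inl i, inr a => inferInstanceAs (Decidable (pos a = i))
  | inr a, inl i => inferInstanceAs (Decidable (pos a = i))
  | inr _, inr _ => inferInstanceAs (Decidable False)

open Classical in
noncomputable def ds {m n : ℕ} (D : Set (Sym2 (Fin m ⊕ Fin n))) (t : ℕ) : ℕ :=
  if ∃ i j : Fin m, i.1 = t ∧ j.1 = t + 1 ∧ s(inl i, inl j) ∈ D then 1 else 0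

lemma cnt_eq_iff (u : ℕ → ℕ) {i j : ℕ} (h : i ≤ j) :
    cnt u i = cnt u j ↔ ∀ t, i ≤ t → t < j → u t ≠ 1 := by
  induction h with
  | refl => simp only [true_iff]; intro t h1 h2; omega
  | @step j hij ih =>
    have := cnt_mono u hij
    simp only [Nat.succ_eq_add_one, Nat.le_eq] at *
    rw [cnt.eq_2 u j]
    constructor
    · intro h t h1 h2
      by_cases e : t = j
      · subst e; intro e; rw [if_pos e] at h; omega
      · exact ih.1 (by omega) t h1 (by omega)
    · intro h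
      rw [if_neg (h j hij (by omega)), ih.2 fun t h1 h2 => h t h1 (by omega)]; rfl

section
variable {m n : ℕ} (pos : Fin n → Fin m) (D : Set (Sym2 (Fin m ⊕ Fin n)))

lemma spine (i : Fin m) (k : ℕ) (hk : k < m) (hi : i.1 ≤ k) (h : cnt (ds D) i = cnt (ds D) k) :
    ((cat pos).deleteEdges D).Reachable (inl i) (inl ⟨k, hk⟩) := by
  induction hi with
  | refl => exact SimpleGraph.Reachable.refl _
  | @step k hik ih =>
    simp only [Nat.succ_eq_add_one, Nat.le_eq] at *
    have h' := (cnt_eq_iff _ (by omega)).1 h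
    refine (ih (by omega) ((cnt_eq_iff _ hik).2 fun t h1 h2 => h' t h1 (by omega))).trans
      (SimpleGraph.Adj.reachable ?_)
    rw [SimpleGraph.deleteEdges_adj]
    refine ⟨Or.inl rfl, fun hD => h' k hik (by omega) ?_⟩
    unfold ds; rw [if_pos ⟨_, _, rfl, rfl, hD⟩]

lemma spine' (i j : Fin m) (h : cnt (ds D) i = cnt (ds D) j) :
    ((cat pos).deleteEdges D).Reachable (inl i) (inl j) := by
  rcases le_total i.1 j.1 with e | e
  · exact spine pos D i j j.2 e h
  · exact (spine pos D j i i.2 e h.symm).symm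

lemma reach (a b : Fin n) : ((cat pos).deleteEdges D).Reachable (inr a) (inr b) ↔
    a = b ∨ (s(inl (pos a), inr a) ∉ D ∧ s(inl (pos b), inr b) ∉ D ∧
      cnt (ds D) (pos a) = cnt (ds D) (pos b)) := by
  classical
  constructor
  · intro h
    let φ : Fin m ⊕ Fin n → ℕ ⊕ Fin n := fun v => match v with
      | inl i => inl (cnt (ds D) i)
      | inr a => if s(inl (pos a), inr a) ∈ D then inr a else inl (cnt (ds D) (pos a))
    have k1 : ∀ i j : Fin m, i.1 + 1 = j.1 → s(inl i, inl j) ∉ D → cnt (ds D) i = cnt (ds D) j := by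
      intro i j e h
      rw [← e, cnt, if_neg, add_zero]
      unfold ds
      rw [if_neg]
      · omega
      · rintro ⟨i', j', h1, h2, h3⟩
        rw [Fin.ext h1, show j' = j from Fin.ext (by omega)] at h3
        exact h h3
    have key : ∀ u v, ((cat pos).deleteEdges D).Adj u v → φ u = φ v := by
      rintro (i | a) (j | b) h <;> rw [SimpleGraph.deleteEdges_adj] at h <;> obtain ⟨h1, h2⟩ := h
      · rcases h1 with h1 | h1
        · exact congrArg inl (k1 i j h1 h2)
        · exact congrArg inl (k1 j i h1 (by rwa [Sym2.eq_swap])).symm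
      · obtain rfl : pos b = i := h1
        simp only [φ, if_neg h2]
      · obtain rfl : pos a = j := h1
        rw [Sym2.eq_swap] at h2
        simp only [φ, if_neg h2]
      · exact h1.elim
    have : ∀ u v, ((cat pos).deleteEdges D).Reachable u v → φ u = φ v := by
      rintro u v ⟨w⟩
      induction w with
      | nil => rfl
      | cons h _ ih => exact (key _ _ h).trans ih
    have := this _ _ h
    simp only [φ] at this
    split_ifs at this with h1 h2 h2
    · exact Or.inl (inr_injective this)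
    · exact Or.inr ⟨h1, h2, inl_injective this⟩
  · rintro (rfl | ⟨h1, h2, h3⟩)
    · exact SimpleGraph.Reachable.refl _
    · have e : ∀ a, s(inl (pos a), inr a) ∉ D →
          ((cat pos).deleteEdges D).Reachable (inl (pos a)) (inr a) := fun a h =>
        SimpleGraph.Adj.reachable (by rw [SimpleGraph.deleteEdges_adj]; exact ⟨rfl, h⟩)
      exact ((e a h1).symm.trans (spine' pos D _ _ h3)).trans (e b h2)

lemma conn (hm : 0 < m) : (cat pos).Connected := by
  have h0 : ∀ j, cnt (ds (∅ : Set (Sym2 (Fin m ⊕ Fin n)))) j = 0 := by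
    intro j; induction j with
    | zero => rfl
    | succ j ih => simp [cnt, ih, ds]
  have h1 : ∀ v, (cat pos).Reachable (inl ⟨0, hm⟩) v := by
    have h2 : ∀ i, (cat pos).Reachable (inl ⟨0, hm⟩) (inl i) := by
      intro i
      have := spine' pos ∅ ⟨0, hm⟩ i (by rw [h0, h0])
      rwa [SimpleGraph.deleteEdges_empty] at this
    rintro (i | a)
    · exact h2 i
    · exact (h2 (pos a)).trans (SimpleGraph.Adj.reachable rfl)
  haveI : Nonempty (Fin m ⊕ Fin n) := ⟨inl ⟨0, hm⟩⟩
  exact ⟨fun u v => (h1 u).symm.trans (h1 v)⟩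

lemma part_iff (s : Setoid (Fin n)) :
    (∃ D : Set (Sym2 (Fin m ⊕ Fin n)), ∀ i j, s i j ↔
      ((cat pos).deleteEdges D).Reachable (inr i) (inr j)) ↔ cond (fun i => (pos i : ℕ)) s := by
  constructor
  · rintro ⟨D, hD⟩ a b c d h1 h2 h3 h4 h5
    simp only [hD, reach, h2, h4, false_or] at h1 h3 h5
    have e : cnt (ds D) (pos a) ≠ cnt (ds D) (pos c) := fun e => h5 (Or.inr ⟨h1.1, h3.1, e⟩)
    have key : ∀ a c : ℕ, cnt (ds D) c < cnt (ds D) a → c < a := by
      intro a c h; by_contra hh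
      have := cnt_mono (ds D) (show a ≤ c by omega); omega
    have e1 := h1.2.2
    have e2 := h3.2.2
    show sep (pos a) (pos b) (pos c) (pos d)
    rcases lt_or_gt_of_ne e with e | e
    · exact Or.inl ⟨key _ _ e, key _ _ (by omega), key _ _ (by omega), key _ _ (by omega)⟩
    · exact Or.inr ⟨key _ _ e, key _ _ (by omega), key _ _ (by omega), key _ _ (by omega)⟩
  · intro h
    let D : Set (Sym2 (Fin m ⊕ Fin n)) := {e | (∃ a, (∀ b, s a b → a = b) ∧ e = s(inl (pos a), inr a)) ∨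
      ∃ i j : Fin m, j.1 = i.1 + 1 ∧ e = s(inl i, inl j) ∧
        ¬ ∃ a b, s a b ∧ (pos a).1 ≤ i.1 ∧ i.1 < (pos b).1}
    have d1 : ∀ a, s(inl (pos a), inr a) ∉ D ↔ ∃ b, s a b ∧ a ≠ b := by
      intro a
      simp only [D, Set.mem_setOf_eq, Sym2.eq_iff]
      constructor
      · intro h; by_contra hh
        push Not at hh
        exact h (Or.inl ⟨a, hh, Or.inl ⟨rfl, rfl⟩⟩)
      · rintro ⟨b, h1, h2⟩ (⟨a', h3, ⟨-, h4⟩ | ⟨h4, -⟩⟩ | ⟨i, j, -, ⟨-, h4⟩ | ⟨-, h4⟩, -⟩)
        · obtain rfl := inr_injective h4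
          exact h2 (h3 b h1)
        all_goals exact absurd h4 (by simp)
    have d2 : ∀ t, t + 1 < m → (ds D t ≠ 1 ↔ ∃ a b, s a b ∧ (pos a).1 ≤ t ∧ t < (pos b).1) := by
      intro t ht
      unfold ds
      constructor
      · intro h; by_contra hh
        exact h (if_pos ⟨⟨t, by omega⟩, ⟨t + 1, ht⟩, rfl, rfl, Or.inr ⟨_, _, rfl, rfl, hh⟩⟩)
      · intro h
        rw [if_neg]
        · omega
        · rintro ⟨i, j, h1, h2, ⟨a, -, h3⟩ | ⟨i', j', h3, h4, h5⟩⟩
          · simp at h3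
          · simp only [Sym2.eq_iff, inl.injEq] at h4
            rcases h4 with ⟨rfl, rfl⟩ | ⟨rfl, rfl⟩
            · exact h5 (h1 ▸ h)
            · omega
    have key : ∀ a b, (pos a).1 ≤ (pos b).1 → (∃ c, s a c ∧ a ≠ c) → (∃ c, s b c ∧ b ≠ c) →
        (cnt (ds D) (pos a) = cnt (ds D) (pos b) ↔ s a b) := by
      intro a b hab ⟨a', a1, a2⟩ ⟨b', b1, b2⟩
      rw [cnt_eq_iff _ hab]
      constructor
      · intro hh
        by_contra hs
        obtain ⟨x, hx, hmax⟩ := Set.exists_max_image {x | s a x} (fun x => (pos x).1)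
          (Set.toFinite _) ⟨a, s.refl a⟩
        have hx' : ∃ x', s x x' ∧ x ≠ x' := by
          by_cases e : x = a
          · exact ⟨a', e ▸ a1, e ▸ a2⟩
          · exact ⟨a, s.symm hx, e⟩
        obtain ⟨x', x1, x2⟩ := hx'
        have e0 := hmax a (s.refl a)
        have e1 := h a a' b b' a1 a2 b1 b2 hs
        have e2 : (pos x).1 < (pos b).1 := by
          by_cases e : a = x
          · subst e; unfold sep at e1; simp only at e1; omega
          · have := h a x b b' hx e b1 b2 hs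
            unfold sep at this; simp only at this; omega
        obtain ⟨c, d, c1, c2, c3⟩ := (d2 _ (by have := (pos b).2; omega)).1 (hh _ e0 e2)
        by_cases e : s x c
        · have := hmax d (s.trans hx (s.trans e c1))
          omega
        · have := h x x' c d x1 x2 c1 (by rintro rfl; omega) e
          unfold sep at this; simp only at this; omega
      · intro hs t h1 h2
        exact (d2 t (by have := (pos b).2; omega)).2 ⟨a, b, hs, h1, h2⟩
    refine ⟨D, fun a b => ?_⟩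
    rw [reach, d1, d1]
    constructor
    · intro hs
      by_cases e : a = b
      · exact Or.inl e
      · have a1 : ∃ c, s a c ∧ a ≠ c := ⟨b, hs, e⟩
        have a2 : ∃ c, s b c ∧ b ≠ c := ⟨a, s.symm hs, Ne.symm e⟩
        refine Or.inr ⟨a1, a2, ?_⟩
        rcases le_total (pos a).1 (pos b).1 with e | e
        · exact (key a b e a1 a2).2 hs
        · exact ((key b a e a2 a1).2 (s.symm hs)).symm
    · rintro (rfl | ⟨a1, a2, e'⟩)
      · exact s.refl _
      · rcases le_total (pos a).1 (pos b).1 with e | e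
        · exact (key a b e a1 a2).1 e'
        · exact s.symm ((key b a e a2 a1).1 e'.symm)

end

def clamp (m x : ℕ) : Fin (m + 1) := ⟨min (x - 1) m, by omega⟩

lemma cond_clamp {m : ℕ} (p : Fin (m + 3) → ℕ) (hp : Function.Injective p) (hl : ∀ i, p i < m + 3)
    (s : Setoid (Fin (m + 3))) : cond (fun i => (clamp m (p i) : ℕ)) s ↔ cond p s := by
  unfold cond
  refine forall₄_congr fun a b c d => forall₅_congr fun h1 h2 h3 h4 h5 => ?_
  have e1 : p a ≠ p b := fun e => h2 (hp e)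
  have e2 : p c ≠ p d := fun e => h4 (hp e)
  have := hl a; have := hl b; have := hl c; have := hl d
  show sep (min (p a - 1) m) (min (p b - 1) m) (min (p c - 1) m) (min (p d - 1) m) ↔ _
  have key : ∀ x y : ℕ, x < m + 3 → y < m + 3 → (min (x - 1) m < min (y - 1) m → x < y) ∧
      ∀ z w, z < m + 3 → w < m + 3 → x ≠ z → y ≠ w → x < y → x < w → z < y → z < w →
        min (x - 1) m < min (y - 1) m := by
    intro x y _ _; exact ⟨by omega, fun z w _ _ _ _ _ _ _ _ => by omega⟩
  unfold sep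
  constructor
  · rintro (⟨f1, f2, f3, f4⟩ | ⟨f1, f2, f3, f4⟩)
    · exact Or.inl ⟨(key _ _ ‹_› ‹_›).1 f1, (key _ _ ‹_› ‹_›).1 f2, (key _ _ ‹_› ‹_›).1 f3,
        (key _ _ ‹_› ‹_›).1 f4⟩
    · exact Or.inr ⟨(key _ _ ‹_› ‹_›).1 f1, (key _ _ ‹_› ‹_›).1 f2, (key _ _ ‹_› ‹_›).1 f3,
        (key _ _ ‹_› ‹_›).1 f4⟩
  · rintro (⟨f1, f2, f3, f4⟩ | ⟨f1, f2, f3, f4⟩)
    · exact Or.inl ⟨(key _ _ ‹_› ‹_›).2 _ _ ‹_› ‹_› e1 e2 f1 f2 f3 f4,
        (key _ _ ‹_› ‹_›).2 _ _ ‹_› ‹_› e1 e2.symm f2 f1 f4 f3,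
        (key _ _ ‹_› ‹_›).2 _ _ ‹_› ‹_› e1.symm e2 f3 f4 f1 f2,
        (key _ _ ‹_› ‹_›).2 _ _ ‹_› ‹_› e1.symm e2.symm f4 f3 f2 f1⟩
    · exact Or.inr ⟨(key _ _ ‹_› ‹_›).2 _ _ ‹_› ‹_› e2 e1 f1 f3 f2 f4,
        (key _ _ ‹_› ‹_›).2 _ _ ‹_› ‹_› e2.symm e1 f2 f4 f1 f3,
        (key _ _ ‹_› ‹_›).2 _ _ ‹_› ‹_› e2 e1.symm f3 f1 f4 f2,
        (key _ _ ‹_› ‹_›).2 _ _ ‹_› ‹_› e2.symm e1.symm f4 f2 f3 f1⟩

lemma tree {m n : ℕ} (pos : Fin n → Fin m) (hm : 0 < m)
    (h : ∑ v, (cat pos).degree v + 2 = 2 * (m + n)) : (cat pos).IsTree := by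
  rw [SimpleGraph.isTree_iff_connected_and_card]
  refine ⟨conn pos hm, ?_⟩
  rw [SimpleGraph.sum_degrees_eq_twice_card_edges] at h
  rw [Nat.card_eq_fintype_card, Nat.card_eq_fintype_card, ← SimpleGraph.edgeFinset_card]
  simp only [Fintype.card_sum, Fintype.card_fin]
  omega

lemma nc {m n : ℕ} (pos : Fin n → Fin m) (v : Fin m ⊕ Fin n) :
    ((cat pos).neighborSet v).ncard = (cat pos).degree v := by
  rw [← SimpleGraph.card_neighborSet_eq_degree, Set.ncard_eq_toFinset_card', Set.toFinset_card]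

lemma phylo {m n : ℕ} (pos : Fin n → Fin m) (hm : 0 < m) (hn : n = m + 2)
    (h : ∀ i, (cat pos).degree (inl i) = 3) :
    (cat pos).IsTree ∧ (∀ v, ((cat pos).neighborSet v).ncard = 1 ∨ ((cat pos).neighborSet v).ncard = 3) ∧
      Function.Injective (inr : Fin n → Fin m ⊕ Fin n) ∧
      ∀ v, ((cat pos).neighborSet v).ncard = 1 ↔ v ∈ Set.range (inr : Fin n → Fin m ⊕ Fin n) := by
  have h1 : ∀ a, (cat pos).degree (inr a) = 1 := by
    intro a
    rw [SimpleGraph.degree_eq_one_iff_existsUnique_adj]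
    refine ⟨inl (pos a), rfl, ?_⟩
    rintro (i | b) h
    · exact congrArg inl (Eq.symm h)
    · exact h.elim
  refine ⟨tree pos hm ?_, ?_, inr_injective, ?_⟩
  · rw [Fintype.sum_sum_type]
    simp only [h, h1, Finset.sum_const, Finset.card_univ, Fintype.card_fin, smul_eq_mul]
    omega
  · rintro (i | a) <;> simp [nc, h, h1]
  · rintro (i | a) <;> simp [nc, h, h1]

lemma X_eq {m : ℕ} (y : ℕ → ℕ) (hp : Function.Injective fun i : Fin (m + 3) => y i)
    (hl : ∀ i : Fin (m + 3), y i < m + 3) (s : Setoid (Fin (m + 3))) :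
    ((∃ D : Set (Sym2 (Fin (m + 1) ⊕ Fin (m + 3))), ∀ i j, s i j ↔
      ((cat fun i : Fin (m + 3) => clamp m i).deleteEdges D).Reachable (inr i) (inr j)) ↔
        cond (fun i => (i : ℕ)) s) ∧
    ((∃ D : Set (Sym2 (Fin (m + 1) ⊕ Fin (m + 3))), ∀ i j, s i j ↔
      ((cat fun i : Fin (m + 3) => clamp m (y i)).deleteEdges D).Reachable (inr i) (inr j)) ↔
        cond (fun i => y i) s) :=
  ⟨(part_iff _ s).trans (cond_clamp _ Fin.val_injective (fun i => i.2) s),
    (part_iff _ s).trans (cond_clamp _ hp hl s)⟩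

end Pool.Agent.H.MP_8b9f13_co
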